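import Pool.Agent.Q322.BQ.Sum

set_option autoImplicit false

/-!
# Termwise homogenization of infinite sums of Brooks quasimorphisms

On every free group of finite rank `r ≥ 2` there is an alternating coefficient map `α`, supported on
the non-self-overlapping words, for which the termwise homogenized sum vanishes identically (so it
is a quasimorphism), while the sum of the Brooks quasimorphisms is not a quasimorphism.
-/

namespace Pool.Agent.Results.MP_c1a8be_al.VanishingHomogenization

open Filter Topology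

/-- The number of occurrences of the word `w` in the word `L`: the number of ways to write
`L = u w v`. -/
noncomputable def occ {β : Type} (w L : List β) : ℕ :=
  Set.ncard {p : List β × List β | p.1 ++ w ++ p.2 = L}

/-- The nontrivial elements whose reduced word `w` does not overlap itself: no nonempty proper
prefix of `w` is a suffix of `w`. -/
def NonSelfOverlapping (r : ℕ) : Set (FreeGroup (Fin r)) :=
  {w | w ≠ 1 ∧ ∀ u : List (Fin r × Bool), u ≠ [] → u <+: w.toWord → u <:+ w.toWord →
    u = w.toWord}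

/-- `Np` contains exactly one of `w`, `w⁻¹` for each `w` without self-overlap. -/
def IsHalf (r : ℕ) (Np : Set (FreeGroup (Fin r))) : Prop :=
  Np ⊆ NonSelfOverlapping r ∧
    ∀ w ∈ NonSelfOverlapping r, (w ∈ Np ∧ w⁻¹ ∉ Np) ∨ (w ∉ Np ∧ w⁻¹ ∈ Np)

/-- The Brooks quasimorphism of a word without self-overlap: the number of occurrences of `w` minus
the number of occurrences of `w⁻¹` in the reduced word of `g`. -/
noncomputable def brooks {r : ℕ} (w g : FreeGroup (Fin r)) : ℝ :=
  (occ w.toWord g.toWord : ℝ) - (occ (w⁻¹).toWord g.toWord : ℝ)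

/-- The homogenization of the Brooks quasimorphism. -/
noncomputable def brooksBar {r : ℕ} (w g : FreeGroup (Fin r)) : ℝ :=
  limUnder atTop (fun n : ℕ => brooks w (g ^ n) / n)

/-- A quasimorphism. -/
def IsQuasimorphism {r : ℕ} (φ : FreeGroup (Fin r) → ℝ) : Prop :=
  ∃ C : ℝ, ∀ g h, |φ g + φ h - φ (g * h)| ≤ C

/-- The sum of the Brooks quasimorphisms with coefficients `α`. -/
noncomputable def phi {r : ℕ} (Np : Set (FreeGroup (Fin r))) (α : FreeGroup (Fin r) → ℝ)
    (g : FreeGroup (Fin r)) : ℝ := ∑ᶠ w ∈ Np, α w * brooks w g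

/-- The sum of the homogenizations. -/
noncomputable def phiBar {r : ℕ} (Np : Set (FreeGroup (Fin r))) (α : FreeGroup (Fin r) → ℝ)
    (g : FreeGroup (Fin r)) : ℝ := ∑ᶠ w ∈ Np, α w * brooksBar w g

/-- For every `r ≥ 2` and every choice `Np` of representatives there is an alternating coefficient
map `α` supported on the non-self-overlapping words such that the homogenized sum is zero and the
sum itself is not a quasimorphism. The limits that define the homogenizations exist and both sums
have finitely many nonzero terms. -/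
theorem result (r : ℕ) (hr : 2 ≤ r) (Np : Set (FreeGroup (Fin r))) (hNp : IsHalf r Np) :
    (∀ w ∈ NonSelfOverlapping r, ∀ g : FreeGroup (Fin r),
      Tendsto (fun n : ℕ => brooks w (g ^ n) / n) atTop (𝓝 (brooksBar w g))) ∧
    ∃ α : FreeGroup (Fin r) → ℝ, (∀ w, α w⁻¹ = -α w) ∧
      (∀ w, w ∉ NonSelfOverlapping r → α w = 0) ∧
      (∀ g, {w | α w * brooks w g ≠ 0}.Finite ∧ {w | α w * brooksBar w g ≠ 0}.Finite) ∧
      (∀ g, phiBar Np α g = 0) ∧
      IsQuasimorphism (phiBar Np α) ∧ ¬ IsQuasimorphism (phi Np α) := by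
  obtain ⟨k, rfl⟩ : ∃ k, r = k + 2 := ⟨r - 2, by omega⟩
  refine ⟨fun w hw g => Pool.Agent.Q322.BQ.tendsto_hBar hw.1 g,
    Pool.Agent.Q322.BQ.al k, Pool.Agent.Q322.BQ.al_inv,
    fun w hw => Pool.Agent.Q322.BQ.al_supp hw, fun g => ⟨?_, ?_⟩, ?_, ?_, ?_⟩
  · exact Pool.Agent.Q322.BQ.fin_supp (fun w => Pool.Agent.Q322.BQ.hB w g) g.toWord.length
      (fun w _ h => Pool.Agent.Q322.BQ.hB_zero w g h)
  · exact Pool.Agent.Q322.BQ.fin_supp (fun w => Pool.Agent.Q322.BQ.hBar w g) g.toWord.length
      (fun w hw h => Pool.Agent.Q322.BQ.hBar_zero hw g h)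
  · exact fun g => Pool.Agent.Q322.BQ.tphi_zero hNp g
  · refine ⟨0, fun g h => ?_⟩
    have h0 : ∀ g, phiBar Np (Pool.Agent.Q322.BQ.al k) g = 0 := fun g =>
      Pool.Agent.Q322.BQ.tphi_zero hNp g
    rw [h0, h0, h0]
    simp
  · rintro ⟨C, hC⟩
    obtain ⟨m, hm⟩ := exists_nat_gt C
    have h1 := hC (Pool.Agent.Q322.BQ.wn k m) (FreeGroup.of 1)
    have e1 : phi Np (Pool.Agent.Q322.BQ.al k) (Pool.Agent.Q322.BQ.wn k m) = m + 1 :=
      Pool.Agent.Q322.BQ.phi_wn hNp m
    have e2 : phi Np (Pool.Agent.Q322.BQ.al k) (FreeGroup.of 1) = 0 :=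
      Pool.Agent.Q322.BQ.phi_b hNp
    have e3 : phi Np (Pool.Agent.Q322.BQ.al k) (Pool.Agent.Q322.BQ.wn k m * FreeGroup.of 1) = 0 :=
      Pool.Agent.Q322.BQ.phi_mul hNp m
    rw [e1, e2, e3, add_zero, sub_zero, abs_of_nonneg (by positivity)] at h1
    linarith

end Pool.Agent.Results.MP_c1a8be_al.VanishingHomogenization
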